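import Mathlib

set_option autoImplicit false

namespace Pool.Agent.Results.MP_10ddbf_co.PrimeClasses

open scoped Pointwise

/-- The combinatorial core: if `n` residues modulo a prime `p ≥ n + 2` are given and one of them is
taken only once, then for some index `j` taken only once and some `u ≠ 0` neither `w j + u` nor
`w j - u` is taken. -/
lemma core {n p : ℕ} (hp : p.Prime) (h1 : n + 2 ≤ p) (w : Fin n → ZMod p) (j₀ : Fin n)
    (hj₀ : ∀ i, i ≠ j₀ → w i ≠ w j₀) :
    ∃ j : Fin n, ∃ u : ZMod p, u ≠ 0 ∧ ∀ i, i ≠ j → w i ≠ w j ∧ w i ≠ w j + u ∧ w i ≠ w j - u := by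
  classical
  have : Fact p.Prime := ⟨hp⟩
  have : NeZero p := ⟨hp.ne_zero⟩
  have hn : 0 < n := Fin.pos j₀
  have h2 : (2 : ZMod p) ≠ 0 := by
    intro h
    have h' : ((2 : ℕ) : ZMod p) = 0 := by exact_mod_cast h
    rw [ZMod.natCast_eq_zero_iff] at h'
    have := Nat.le_of_dvd (by norm_num) h'
    omega
  set A : Finset (ZMod p) := Finset.univ.image w with hA
  set S : Finset (ZMod p) := A.filter (fun x => (Finset.univ.filter (fun i => w i = x)).card = 1)
    with hS
  set M : Finset (ZMod p) := A.filter (fun x => ¬ (Finset.univ.filter (fun i => w i = x)).card = 1)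
    with hM
  set C : Finset (ZMod p) := Aᶜ with hC
  have hSM : S.card + M.card = A.card := Finset.card_filter_add_card_filter_not _
  have hCA : A.card + C.card = p := by
    rw [hC, Finset.card_add_card_compl, ZMod.card]
  have hcount : S.card + 2 * M.card ≤ n := by
    have e1 : n = ∑ x ∈ A, (Finset.univ.filter (fun i => w i = x)).card := by
      have := Finset.card_eq_sum_card_fiberwise (f := w) (s := Finset.univ) (t := A)
        (fun i _ => Finset.mem_image_of_mem w (Finset.mem_univ i))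
      simpa using this
    have e2 : ∑ x ∈ A, (Finset.univ.filter (fun i => w i = x)).card
        = ∑ x ∈ S, (Finset.univ.filter (fun i => w i = x)).card
          + ∑ x ∈ M, (Finset.univ.filter (fun i => w i = x)).card :=
      (Finset.sum_filter_add_sum_filter_not A _ _).symm
    have e3 : ∑ x ∈ S, 1 ≤ ∑ x ∈ S, (Finset.univ.filter (fun i => w i = x)).card := by
      apply Finset.sum_le_sum
      intro x hx
      have := (Finset.mem_filter.mp hx).2
      omega
    have e4 : ∑ x ∈ M, 2 ≤ ∑ x ∈ M, (Finset.univ.filter (fun i => w i = x)).card := by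
      apply Finset.sum_le_sum
      intro x hx
      obtain ⟨hxA, hx1⟩ := Finset.mem_filter.mp hx
      obtain ⟨i, _, hi⟩ := Finset.mem_image.mp hxA
      have : 0 < (Finset.univ.filter (fun i => w i = x)).card :=
        Finset.card_pos.mpr ⟨i, Finset.mem_filter.mpr ⟨Finset.mem_univ i, hi⟩⟩
      omega
    rw [Finset.sum_const, smul_eq_mul] at e3 e4
    omega
  have hSpos : 0 < S.card := by
    apply Finset.card_pos.mpr
    refine ⟨w j₀, Finset.mem_filter.mpr ⟨Finset.mem_image_of_mem w (Finset.mem_univ _), ?_⟩⟩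
    rw [Finset.card_eq_one]
    refine ⟨j₀, ?_⟩
    ext i
    simp only [Finset.mem_filter, Finset.mem_univ, true_and, Finset.mem_singleton]
    constructor
    · intro h; by_contra hne; exact hj₀ i hne h
    · rintro rfl; rfl
  have hCpos : C.Nonempty := by
    apply Finset.card_pos.mp
    omega
  have hCD := ZMod.cauchy_davenport hp hCpos hCpos
  set E : Finset (ZMod p) := (M ∪ C).image (fun x => 2 * x) with hE
  have hEcard : E.card ≤ M.card + C.card :=
    Finset.card_image_le.trans (Finset.card_union_le _ _)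
  have hlt : E.card < (C + C).card := by
    refine lt_of_lt_of_le ?_ hCD
    rw [lt_min_iff]
    constructor <;> omega
  obtain ⟨z, hz, hzE⟩ := Finset.exists_mem_notMem_of_card_lt_card hlt
  obtain ⟨c, hc, c', hc', hcc⟩ := Finset.mem_add.mp hz
  set x : ZMod p := z / 2 with hx
  have hx2 : 2 * x = z := by rw [hx]; field_simp
  have hxMC : x ∉ M ∪ C := by
    intro h
    apply hzE
    rw [hE, Finset.mem_image]
    exact ⟨x, h, hx2⟩
  rw [Finset.mem_union, not_or] at hxMC
  have hxA : x ∈ A := by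
    by_contra h
    exact hxMC.2 (by rw [hC, Finset.mem_compl]; exact h)
  have hxS : (Finset.univ.filter (fun i => w i = x)).card = 1 := by
    by_contra h
    exact hxMC.1 (Finset.mem_filter.mpr ⟨hxA, h⟩)
  obtain ⟨j, hj⟩ := Finset.card_eq_one.mp hxS
  have hjx : w j = x := by
    have : j ∈ Finset.univ.filter (fun i => w i = x) := by rw [hj]; exact Finset.mem_singleton_self j
    exact (Finset.mem_filter.mp this).2
  have hCw : ∀ y ∈ C, ∀ i, w i ≠ y := by
    intro y hy i hi
    rw [hC, Finset.mem_compl] at hy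
    exact hy (hi ▸ Finset.mem_image_of_mem w (Finset.mem_univ i))
  refine ⟨j, c - x, ?_, ?_⟩
  · intro h
    have : c = x := by linear_combination h
    exact hxMC.2 (this ▸ hc)
  · intro i hij
    refine ⟨?_, ?_, ?_⟩
    · intro h
      have : i ∈ Finset.univ.filter (fun i => w i = x) :=
        Finset.mem_filter.mpr ⟨Finset.mem_univ i, by rw [h, hjx]⟩
      rw [hj, Finset.mem_singleton] at this
      exact hij this
    · intro h
      exact hCw c hc i (by rw [h, hjx]; ring)
    · intro h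
      exact hCw c' hc' i (by rw [h, hjx]; linear_combination hx2 - hcc)

/-- Integer speeds: a prime `p ≥ n + 2` modulo which one speed is alone in its residue class
gives, at a time `a / p`, a runner at distance at least `2 / p` from all others. -/
lemma integer_case {n p : ℕ} (hp : p.Prime) (h1 : n + 2 ≤ p) (w : Fin n → ℤ)
    (j₀ : Fin n) (hj₀ : ∀ i, i ≠ j₀ → ¬ (p : ℤ) ∣ w i - w j₀) :
    ∃ a : ℤ, ∃ j : Fin n, ∀ i, i ≠ j → ∀ k : ℤ,
      (2 : ℝ) / (p : ℝ) ≤ |(a : ℝ) / (p : ℝ) * ((w i : ℝ) - (w j : ℝ)) - (k : ℝ)| := by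
  have : Fact p.Prime := ⟨hp⟩
  have : NeZero p := ⟨hp.ne_zero⟩
  obtain ⟨j, u, hu, hj⟩ := core hp h1 (fun i => (w i : ZMod p)) j₀ (by
    intro i hi h
    apply hj₀ i hi
    rw [← ZMod.intCast_zmod_eq_zero_iff_dvd] 
    push_cast
    exact sub_eq_zero.mpr h)
  refine ⟨((u⁻¹ : ZMod p).val : ℤ), j, ?_⟩
  intro i hij k
  set a : ℤ := ((u⁻¹ : ZMod p).val : ℤ) with ha
  have hau : (a : ZMod p) * u = 1 := by
    rw [ha]
    push_cast
    rw [ZMod.natCast_zmod_val]
    exact inv_mul_cancel₀ hu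
  obtain ⟨g0, g1, g2⟩ := hj i hij
  set e : ℤ := a * (w i - w j) - k * p with he
  have heZ : (e : ZMod p) = a * ((w i : ZMod p) - (w j : ZMod p)) := by
    rw [he]; push_cast; simp
  have hdiff : (w i : ZMod p) - (w j : ZMod p) = u * (e : ZMod p) := by
    rw [heZ]
    linear_combination (-((w i : ZMod p) - (w j : ZMod p))) * hau
  have he0 : e ≠ 0 := by
    intro h
    apply g0
    have : (w i : ZMod p) - (w j : ZMod p) = 0 := by rw [hdiff, h]; simp
    exact sub_eq_zero.mp this
  have he1 : e ≠ 1 := by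
    intro h
    apply g1
    have : (w i : ZMod p) - (w j : ZMod p) = u := by rw [hdiff, h]; simp
    linear_combination this
  have he2 : e ≠ -1 := by
    intro h
    apply g2
    have : (w i : ZMod p) - (w j : ZMod p) = -u := by rw [hdiff, h]; simp
    linear_combination this
  have habs : (2 : ℤ) ≤ |e| := by
    rw [le_abs]; omega
  have hpR : (0 : ℝ) < (p : ℝ) := by exact_mod_cast hp.pos
  have e1 : (a : ℝ) / (p : ℝ) * ((w i : ℝ) - (w j : ℝ)) - (k : ℝ) = (e : ℝ) / (p : ℝ) := by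
    rw [he]; push_cast; field_simp
  rw [e1, abs_div, abs_of_pos hpR]
  have h3 : (2 : ℝ) ≤ |(e : ℝ)| := by exact_mod_cast habs
  exact div_le_div_of_nonneg_right h3 hpR.le

/-- A short interval of integer speeds has a speed alone in its class modulo `p`. -/
lemma exists_single {n p : ℕ} (hn : 0 < n) (h1 : n + 2 ≤ p) (w : Fin n → ℤ) (hw : Function.Injective w)
    (a b : ℤ) (hab : ∀ i, a ≤ w i ∧ w i ≤ b) (hlen : 2 * (b - a + 1 - p) < n) :
    ∃ j₀ : Fin n, ∀ i, i ≠ j₀ → ¬ (p : ℤ) ∣ w i - w j₀ := by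
  classical
  by_contra hcon
  push Not at hcon
  have hsub : Finset.univ.image w ⊆ Finset.Icc a (b - p) ∪ Finset.Icc (a + p) b := by
    intro x hx
    obtain ⟨j, _, rfl⟩ := Finset.mem_image.mp hx
    obtain ⟨i, hij, c, hc⟩ := hcon j
    have hne : w i ≠ w j := fun h => hij (hw h)
    obtain ⟨hai, hbi⟩ := hab i
    obtain ⟨haj, hbj⟩ := hab j
    have hpn : ((n : ℤ)) + 2 ≤ p := by exact_mod_cast h1
    have hc2 : c < 2 := by
      by_contra h
      have : (p : ℤ) * 2 ≤ p * c := mul_le_mul_of_nonneg_left (by omega) (by omega)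
      omega
    have hc2' : -2 < c := by
      by_contra h
      have : (p : ℤ) * c ≤ p * (-2) := mul_le_mul_of_nonneg_left (by omega) (by omega)
      omega
    have hc3 : c = -1 ∨ c = 0 ∨ c = 1 := by omega
    rw [Finset.mem_union, Finset.mem_Icc, Finset.mem_Icc]
    rcases hc3 with rfl | rfl | rfl
    · right; omega
    · exfalso; omega
    · left; omega
  have hcard := (Finset.card_le_card hsub).trans (Finset.card_union_le _ _)
  rw [Finset.card_image_of_injective _ hw, Finset.card_univ, Fintype.card_fin, Int.card_Icc,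
    Int.card_Icc] at hcard
  omega

/-- Two primes: distinct integers in an interval of length less than `2 q` have a class modulo `q`
or modulo `p > q` with exactly one element. -/
lemma exists_single_two {n p q : ℕ} (hn : 0 < n) (hqp : q < p) (w : Fin n → ℤ)
    (hw : Function.Injective w) (a b : ℤ) (hab : ∀ i, a ≤ w i ∧ w i ≤ b) (hlen : b - a < 2 * q) :
    (∃ j₀ : Fin n, ∀ i, i ≠ j₀ → ¬ (q : ℤ) ∣ w i - w j₀) ∨
      (∃ j₀ : Fin n, ∀ i, i ≠ j₀ → ¬ (p : ℤ) ∣ w i - w j₀) := by
  by_contra hcon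
  rw [not_or] at hcon
  obtain ⟨hq, hp⟩ := hcon
  push Not at hq hp
  have : Nonempty (Fin n) := ⟨⟨0, hn⟩⟩
  obtain ⟨i₀, hmin⟩ := Finite.exists_min w
  obtain ⟨i₁, h10, c, hc⟩ := hq i₀
  have hne1 : w i₁ ≠ w i₀ := fun h => h10 (hw h)
  have hm1 := hmin i₁
  obtain ⟨ha0, hb0⟩ := hab i₀
  obtain ⟨ha1, hb1⟩ := hab i₁
  have hq0 : (0 : ℤ) ≤ q := by positivity
  have hc1 : c = 1 := by
    have h1 : c < 2 := by
      by_contra h
      have : (q : ℤ) * 2 ≤ q * c := mul_le_mul_of_nonneg_left (by omega) hq0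
      omega
    have h2 : 0 < c := by
      by_contra h
      have : (q : ℤ) * c ≤ q * 0 := mul_le_mul_of_nonneg_left (by omega) hq0
      omega
    omega
  subst hc1
  obtain ⟨i₂, h21, d, hd⟩ := hp i₁
  have hne2 : w i₂ ≠ w i₁ := fun h => h21 (hw h)
  have hm2 := hmin i₂
  obtain ⟨ha2, hb2⟩ := hab i₂
  have hp0 : (0 : ℤ) ≤ p := by positivity
  have hqp' : (q : ℤ) < p := by exact_mod_cast hqp
  have hd0 : d ≠ 0 := by
    rintro rfl
    apply hne2
    linarith
  rcases lt_or_gt_of_ne hd0 with h | h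
  · have : (p : ℤ) * d ≤ p * (-1) := mul_le_mul_of_nonneg_left (by omega) hp0
    omega
  · have : (p : ℤ) * 1 ≤ p * d := mul_le_mul_of_nonneg_left (by omega) hp0
    omega

/-- **Weak lonely runner, prime classes.**  Speeds `β + α w i` with `w i` integers; `p ≥ n + 2` is a
prime.  Suppose that some class modulo `p` contains exactly one `w i`, or that the `w i` are distinct
and lie in an interval `[a, b]` with `2 (b - a + 1 - p) < n`, or that they are distinct and lie in an
interval `[a, b]` with `b - a < 2 q` for a prime `q` with `n + 2 ≤ q < p`.  Then at some time some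
runner is at distance at least `2 / p` from all others; this is at least `1 / n` if `p ≤ 2 n`. -/
theorem result (n p : ℕ) (hn : 1 ≤ n) (hp : p.Prime) (h1 : n + 2 ≤ p)
    (v : Fin n → ℝ) (w : Fin n → ℤ) (α β : ℝ) (hα : α ≠ 0) (hv : ∀ i, v i = β + α * (w i : ℝ))
    (hw : (∃ j₀ : Fin n, ∀ i, i ≠ j₀ → ¬ (p : ℤ) ∣ w i - w j₀) ∨
      (Function.Injective w ∧ ∃ a b : ℤ, (∀ i, a ≤ w i ∧ w i ≤ b) ∧
        (2 * (b - a + 1 - p) < n ∨
          ∃ q : ℕ, q.Prime ∧ n + 2 ≤ q ∧ q < p ∧ b - a < 2 * q))) :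
    ∃ t : ℝ, ∃ j : Fin n, ∀ i : Fin n, i ≠ j →
      (2 : ℝ) / (p : ℝ) ≤ |t * (v i - v j) - (round (t * (v i - v j)) : ℝ)| ∧
      (p ≤ 2 * n →
        (1 : ℝ) / (n : ℝ) ≤ |t * (v i - v j) - (round (t * (v i - v j)) : ℝ)|) := by
  have hpR : (0 : ℝ) < (p : ℝ) := by exact_mod_cast hp.pos
  -- a time for the integer speeds
  have hs : ∃ t : ℝ, ∃ j : Fin n, ∀ i, i ≠ j → ∀ k : ℤ,
      (2 : ℝ) / (p : ℝ) ≤ |t * ((w i : ℝ) - (w j : ℝ)) - (k : ℝ)| := by
    have hsingle : (∃ j₀ : Fin n, ∀ i, i ≠ j₀ → ¬ (p : ℤ) ∣ w i - w j₀) →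
        ∃ t : ℝ, ∃ j : Fin n, ∀ i, i ≠ j → ∀ k : ℤ,
          (2 : ℝ) / (p : ℝ) ≤ |t * ((w i : ℝ) - (w j : ℝ)) - (k : ℝ)| := by
      rintro ⟨j₀, hj₀⟩
      obtain ⟨a, j, hj⟩ := integer_case hp h1 w j₀ hj₀
      exact ⟨_, j, hj⟩
    rcases hw with hw | ⟨hinj, a, b, hab, hlen | ⟨q, hq, hq1, hqp, hlen⟩⟩
    · exact hsingle hw
    · exact hsingle (exists_single hn h1 w hinj a b hab hlen)
    · rcases exists_single_two hn hqp w hinj a b hab hlen with ⟨j₀, hj₀⟩ | h
      · obtain ⟨a, j, hj⟩ := integer_case hq hq1 w j₀ hj₀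
        refine ⟨_, j, fun i hij k => le_trans ?_ (hj i hij k)⟩
        have hqR : (0 : ℝ) < (q : ℝ) := by exact_mod_cast hq.pos
        have hqpR : (q : ℝ) ≤ (p : ℝ) := by exact_mod_cast hqp.le
        exact div_le_div_of_nonneg_left (by norm_num) hqR hqpR
      · exact hsingle h
  obtain ⟨t, j, hj⟩ := hs
  refine ⟨t / α, j, fun i hij => ?_⟩
  have e : t / α * (v i - v j) = t * ((w i : ℝ) - (w j : ℝ)) := by
    rw [hv i, hv j]; field_simp; ring
  rw [e]
  have key := hj i hij (round (t * ((w i : ℝ) - (w j : ℝ))))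
  refine ⟨key, fun h2 => le_trans ?_ key⟩
  have hnR : (0 : ℝ) < (n : ℝ) := by exact_mod_cast hn
  have h2R : (p : ℝ) ≤ 2 * (n : ℝ) := by exact_mod_cast h2
  rw [div_le_div_iff₀ hnR hpR]
  linarith

end Pool.Agent.Results.MP_10ddbf_co.PrimeClasses
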